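import Pool.Agent.W37.SG.Stm2

/-!
SG-LIE: the Lie algebra of vector fields (project SG, MP_9a3597_al).
-/

namespace Pool.Agent.W403.SGLIE

open Pool.Agent.W37.SG Filter Topology

variable {p : ℕ} [Fact p.Prime]

lemma lim_of (A : ℕ → ℚ_[p]) (a : ℚ_[p]) (c : ℕ)
    (h : ∀ i, c ≤ i → ∃ w : ℤ_[p], A i - a = (p : ℚ_[p]) ^ (i - c) * (w : ℚ_[p])) :
    Tendsto A atTop (𝓝 a) := by
  rw [tendsto_iff_norm_sub_tendsto_zero]
  have h1 : Tendsto (fun i : ℕ => ((p : ℝ)⁻¹) ^ (i - c)) atTop (𝓝 0) := by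
    have h2 : Tendsto (fun n : ℕ => ((p : ℝ)⁻¹) ^ n) atTop (𝓝 0) := by
      apply tendsto_pow_atTop_nhds_zero_of_lt_one
      · positivity
      · exact inv_lt_one_of_one_lt₀ (by exact_mod_cast (Fact.out : p.Prime).one_lt)
    exact h2.comp (tendsto_sub_atTop_nat c)
  refine squeeze_zero' (Eventually.of_forall fun i => norm_nonneg _) ?_ h1
  filter_upwards [eventually_ge_atTop c] with i hi
  obtain ⟨w, hw⟩ := h i hi
  rw [hw, norm_mul, norm_pow, Padic.norm_p]
  have : ‖(w : ℚ_[p])‖ ≤ 1 := w.2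
  exact mul_le_of_le_one_right (by positivity) this

/-- scaling factor -/
noncomputable def tt (p : ℕ) [Fact p.Prime] (J i : ℕ) : ℚ_[p] := (p : ℚ_[p]) ^ (i - J)

/-- the powers of `X` -/
noncomputable def YY (X : Pm p) (s i : ℕ) : Pm p := X ^ p ^ (i - s)

/-- `G` is the derivative of `F` -/
def HasD (X : Pm p) (s J : ℕ) (F G : Qf p) : Prop :=
  ∀ x, Tendsto (fun i => (tt p J i)⁻¹ * (F (YY X s i x) - F x)) atTop (𝓝 (G x))

/-- `F` is continuous along the `Y`. -/
def ContY (X : Pm p) (s : ℕ) (F : Qf p) : Prop :=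
  ∀ x, Tendsto (fun i => F (YY X s i x)) atTop (𝓝 (F x))

lemma p_ne : (p : ℚ_[p]) ≠ 0 := by
  exact_mod_cast (Fact.out : p.Prime).ne_zero

lemma HasD.uniq {X : Pm p} {s J : ℕ} {F G G' : Qf p} (h : HasD X s J F G)
    (h' : HasD X s J F G') : G = G' := by
  funext x
  exact tendsto_nhds_unique (h x) (h' x)

lemma HasD.add {X : Pm p} {s J : ℕ} {F G F' G' : Qf p} (h : HasD X s J F G)
    (h' : HasD X s J F' G') : HasD X s J (F + F') (G + G') := by
  intro x
  refine ((h x).add (h' x)).congr fun i => ?_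
  simp only [Pi.add_apply]
  ring

lemma HasD.sub {X : Pm p} {s J : ℕ} {F G F' G' : Qf p} (h : HasD X s J F G)
    (h' : HasD X s J F' G') : HasD X s J (F - F') (G - G') := by
  intro x
  refine ((h x).sub (h' x)).congr fun i => ?_
  simp only [Pi.sub_apply]
  ring

lemma HasD.smul {X : Pm p} {s J : ℕ} {F G : Qf p} (h : HasD X s J F G) (c : ℚ_[p]) :
    HasD X s J (c • F) (c • G) := by
  intro x
  refine ((h x).const_mul c).congr fun i => ?_
  simp only [Pi.smul_apply, smul_eq_mul]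
  ring

lemma HasD.mul {X : Pm p} {s J : ℕ} {F G F' G' : Qf p} (h : HasD X s J F G)
    (h' : HasD X s J F' G') (hc : ContY X s F') :
    HasD X s J (F * F') (fun x => G x * F' x + F x * G' x) := by
  intro x
  refine (((h x).mul (hc x)).add ((h' x).const_mul (F x))).congr fun i => ?_
  simp only [Pi.mul_apply]
  ring

lemma hasD_one {X : Pm p} {s J : ℕ} : HasD X s J (oneF p) 0 := by
  intro x
  simp [oneF]

/-- The derivative. -/
noncomputable def DQ (X : Pm p) (s J : ℕ) (F : Qf p) : Qf p :=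
  fun x => limUnder atTop (fun i => (tt p J i)⁻¹ * (F (YY X s i x) - F x))

lemma HasD.eq {X : Pm p} {s J : ℕ} {F G : Qf p} (h : HasD X s J F G) : DQ X s J F = G := by
  funext x
  exact (h x).limUnder_eq

section main

variable {s : ℕ} {Q : Subgroup (Pm p)} {X : Pm p} {J α : ℕ} {Φ : Zf p} {e : Pm p → Zf p}
  {Λ : Submodule ℤ_[p] (Zf p)} {D : Zf p → Zf p}

lemma phi_pow (hB : BHyp p s Q X J α Φ) (n : ℕ) (x) : Φ ((X ^ n) x) = Φ x + n := by
  induction n generalizing x with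
  | zero => simp
  | succ n ih =>
    rw [pow_succ, Equiv.Perm.mul_apply, ih, hB.chart.shift]
    push_cast
    ring

lemma phi_Y (hB : BHyp p s Q X J α Φ) (i : ℕ) (x) :
    Φ (YY X s i x) - Φ x = (p : ℤ_[p]) ^ (i - s) := by
  rw [YY, phi_pow hB]
  push_cast
  ring

lemma agr_Y (hB : BHyp p s Q X J α Φ) {i : ℕ} (hi : J ≤ i) (x) : Agr p i x (YY X s i x) := by
  intro j hj
  exact ((hB.xp i (hB.A.sJ.trans hi)).1 x j hj).symm

lemma agr_tri {g : Pm p} (hg : IsTri p g) {k : ℕ} {x y : ℕ → ZMod p} (h : Agr p k x y) :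
    Agr p k (g x) (g y) := by
  intro j hj
  have h1 := hg j x y (fun l hl => h l (hl.trans hj))
  rw [h j hj] at h1
  exact sub_left_inj.mp h1

lemma e_ne (hE : EHyp p s Q X J Φ e) {g : Pm p} (hg : g ∈ Q) (x) : (e g x : ℚ_[p]) ≠ 0 := by
  intro h
  have h0 : e g x = 0 := Subtype.ext h
  have h1 := hE.one g hg x
  rw [h0, zero_sub, dvd_neg] at h1
  exact PadicInt.prime_p.not_isUnit (isUnit_of_dvd_one h1)

lemma e_one (hE : EHyp p s Q X J Φ e) (x) : (e 1 x : ℚ_[p]) = 1 := by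
  have h1 := hE.mul 1 Q.one_mem 1 Q.one_mem x
  have h2 := e_ne hE Q.one_mem x
  have h3 : (e 1 x : ℚ_[p]) = (e 1 x : ℚ_[p]) * (e 1 x : ℚ_[p]) := by
    have := congrArg (fun z : ℤ_[p] => (z : ℚ_[p])) h1
    simpa using this
  exact mul_left_cancel₀ h2 (by rw [mul_one]; exact h3.symm)

/-- the key limit -/
lemma key (hB : BHyp p s Q X J α Φ) (hE : EHyp p s Q X J Φ e) (hD : DHyp p s J Φ Λ D)
    {f : Zf p} (hf : f ∈ Λ) {g : Pm p} (hg : g ∈ Q) (x) :
    Tendsto (fun i => (tt p J i)⁻¹ *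
      ((f (g (YY X s i x)) : ℚ_[p]) - (f (g x) : ℚ_[p]))) atTop
      (𝓝 ((D f (g x) : ℚ_[p]) * (e g x : ℚ_[p])⁻¹)) := by
  have hp := p_ne (p := p)
  have hsJ := hB.A.sJ
  have hne := e_ne hE hg x
  set φ : ℕ → ℚ_[p] := fun i =>
    ((p : ℚ_[p]) ^ (i - s))⁻¹ * ((Φ (g (YY X s i x)) : ℚ_[p]) - (Φ (g x) : ℚ_[p])) with hφ
  have h1 : Tendsto (fun i => (e g x : ℚ_[p]) * φ i) atTop (𝓝 1) := by
    apply lim_of _ _ (J + 1)
    intro i hi
    have hJi : J ≤ i := by omega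
    obtain ⟨w, hw⟩ := hE.gd g hg i hJi x (YY X s i x) (agr_Y hB hJi x)
    refine ⟨-w, ?_⟩
    rw [phi_Y hB] at hw
    have hw' := congrArg (fun z : ℤ_[p] => (z : ℚ_[p])) hw
    push_cast at hw'
    have e1 : 2 * i - J - s - 1 = (i - s) + (i - (J + 1)) := by omega
    rw [e1, pow_add] at hw'
    have hps : (p : ℚ_[p]) ^ (i - s) ≠ 0 := pow_ne_zero _ hp
    apply mul_left_cancel₀ hps
    simp only [hφ]
    push_cast
    calc (p : ℚ_[p]) ^ (i - s) * ((e g x : ℚ_[p]) * (((p : ℚ_[p]) ^ (i - s))⁻¹ *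
          ((Φ (g (YY X s i x)) : ℚ_[p]) - (Φ (g x) : ℚ_[p]))) - 1)
        = ((p : ℚ_[p]) ^ (i - s) * ((p : ℚ_[p]) ^ (i - s))⁻¹) * ((e g x : ℚ_[p]) *
          ((Φ (g (YY X s i x)) : ℚ_[p]) - (Φ (g x) : ℚ_[p]))) - (p : ℚ_[p]) ^ (i - s) := by ring
      _ = (e g x : ℚ_[p]) * ((Φ (g (YY X s i x)) : ℚ_[p]) - (Φ (g x) : ℚ_[p])) -
          (p : ℚ_[p]) ^ (i - s) := by rw [mul_inv_cancel₀ hps, one_mul]
      _ = -((p : ℚ_[p]) ^ (i - s) * (p : ℚ_[p]) ^ (i - (J + 1)) * (w : ℚ_[p])) := by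
          rw [← hw']; ring
      _ = _ := by ring
  have h2 : Tendsto φ atTop (𝓝 (e g x : ℚ_[p])⁻¹) := by
    have := h1.const_mul ((e g x : ℚ_[p])⁻¹)
    rw [mul_one] at this
    refine this.congr fun i => ?_
    rw [← mul_assoc, inv_mul_cancel₀ hne, one_mul]
  have h3 : Tendsto (fun i => (tt p J i)⁻¹ *
      ((f (g (YY X s i x)) : ℚ_[p]) - (f (g x) : ℚ_[p])) - φ i * (D f (g x) : ℚ_[p])) atTop
      (𝓝 0) := by
    apply lim_of _ _ J
    intro i hi
    obtain ⟨w, hw⟩ := hD.sd f hf i hi (g x) (g (YY X s i x)) (agr_tri (hB.tri g hg)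
      (agr_Y hB hi x))
    refine ⟨w, ?_⟩
    have hw' := congrArg (fun z : ℤ_[p] => (z : ℚ_[p])) hw
    push_cast at hw'
    have e1 : 2 * i - J - s = (i - s) + (i - J) := by omega
    rw [e1, pow_add] at hw'
    have e2 : i - s = (J - s) + (i - J) := by omega
    have hps : (p : ℚ_[p]) ^ (i - s) ≠ 0 := pow_ne_zero _ hp
    have hpJ : (p : ℚ_[p]) ^ (i - J) ≠ 0 := pow_ne_zero _ hp
    have e3 : (p : ℚ_[p]) ^ (i - s) * ((p : ℚ_[p]) ^ (i - J))⁻¹ = (p : ℚ_[p]) ^ (J - s) := by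
      rw [e2, pow_add, mul_assoc, mul_inv_cancel₀ hpJ, mul_one]
    apply mul_left_cancel₀ hps
    simp only [hφ, tt]
    calc (p : ℚ_[p]) ^ (i - s) * (((p : ℚ_[p]) ^ (i - J))⁻¹ *
          ((f (g (YY X s i x)) : ℚ_[p]) - (f (g x) : ℚ_[p])) - ((p : ℚ_[p]) ^ (i - s))⁻¹ *
          ((Φ (g (YY X s i x)) : ℚ_[p]) - (Φ (g x) : ℚ_[p])) * (D f (g x) : ℚ_[p]) - 0)
        = ((p : ℚ_[p]) ^ (i - s) * ((p : ℚ_[p]) ^ (i - J))⁻¹) *
          ((f (g (YY X s i x)) : ℚ_[p]) - (f (g x) : ℚ_[p])) -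
          ((p : ℚ_[p]) ^ (i - s) * ((p : ℚ_[p]) ^ (i - s))⁻¹) *
          (((Φ (g (YY X s i x)) : ℚ_[p]) - (Φ (g x) : ℚ_[p])) * (D f (g x) : ℚ_[p])) := by ring
      _ = (p : ℚ_[p]) ^ (i - s) * (p : ℚ_[p]) ^ (i - J) * (w : ℚ_[p]) := by
          rw [mul_inv_cancel₀ hps, one_mul, e3, ← hw']
      _ = _ := by ring
  have h4 := h3.add (h2.mul_const (D f (g x) : ℚ_[p]))
  rw [zero_add, mul_comm] at h4
  refine h4.congr fun i => ?_
  ring

lemma mem_LQ {f : Zf p} (hf : f ∈ Λ) : (fun x => (f x : ℚ_[p])) ∈ LQ p Λ :=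
  Submodule.subset_span ⟨f, hf, rfl⟩

/-- the derivative of elements of `L` -/
lemma exD (hB : BHyp p s Q X J α Φ) (hE : EHyp p s Q X J Φ e) (hD : DHyp p s J Φ Λ D)
    {F : Qf p} (hF : F ∈ LQ p Λ) :
    ∃ G ∈ LQ p Λ, ∀ g ∈ Q, ∀ x, Tendsto (fun i => (tt p J i)⁻¹ *
      (F (g (YY X s i x)) - F (g x))) atTop (𝓝 (G (g x) * (e g x : ℚ_[p])⁻¹)) := by
  induction hF using Submodule.span_induction with
  | mem F hF =>
    obtain ⟨f, hf, rfl⟩ := hF
    exact ⟨_, mem_LQ (hD.mem f hf), fun g hg x => key hB hE hD hf hg x⟩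
  | zero =>
    refine ⟨0, Submodule.zero_mem _, fun g hg x => ?_⟩
    simp
  | add F F' _ _ ih ih' =>
    obtain ⟨G, hG, h⟩ := ih
    obtain ⟨G', hG', h'⟩ := ih'
    refine ⟨G + G', Submodule.add_mem _ hG hG', fun g hg x => ?_⟩
    have := (h g hg x).add (h' g hg x)
    rw [← add_mul] at this
    refine this.congr fun i => ?_
    simp only [Pi.add_apply]
    ring
  | smul c F _ ih =>
    obtain ⟨G, hG, h⟩ := ih
    refine ⟨c • G, Submodule.smul_mem _ _ hG, fun g hg x => ?_⟩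
    have := (h g hg x).const_mul c
    rw [← mul_assoc] at this
    refine this.congr fun i => ?_
    simp only [Pi.smul_apply, smul_eq_mul]
    ring

lemma hasD_of {F G : Qf p} (hE : EHyp p s Q X J Φ e)
    (h : ∀ g ∈ Q, ∀ x, Tendsto (fun i => (tt p J i)⁻¹ *
      (F (g (YY X s i x)) - F (g x))) atTop (𝓝 (G (g x) * (e g x : ℚ_[p])⁻¹))) :
    HasD X s J F G := by
  intro x
  have := h 1 Q.one_mem x
  rw [e_one hE, inv_one, mul_one] at this
  exact this

lemma hasD_DQ (hB : BHyp p s Q X J α Φ) (hE : EHyp p s Q X J Φ e) (hD : DHyp p s J Φ Λ D)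
    {F : Qf p} (hF : F ∈ LQ p Λ) : HasD X s J F (DQ X s J F) ∧ DQ X s J F ∈ LQ p Λ ∧
    ∀ g ∈ Q, ∀ x, Tendsto (fun i => (tt p J i)⁻¹ *
      (F (g (YY X s i x)) - F (g x))) atTop (𝓝 (DQ X s J F (g x) * (e g x : ℚ_[p])⁻¹)) := by
  obtain ⟨G, hG, h⟩ := exD hB hE hD hF
  have h1 : HasD X s J F G := hasD_of hE h
  rw [h1.eq]
  exact ⟨h1, hG, h⟩

lemma cont (hL : LHyp p Q J α e Λ) {F : Qf p} (hF : F ∈ LQ p Λ) :
    ∀ R : ℕ, ∃ k : ℕ, ∀ x y, Agr p k x y → ‖F x - F y‖ ≤ (p : ℝ) ^ (-(R : ℤ)) := by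
  have hp0 : (0 : ℝ) < p := by exact_mod_cast (Fact.out : p.Prime).pos
  have hp1 : (1 : ℝ) < p := by exact_mod_cast (Fact.out : p.Prime).one_lt
  induction hF using Submodule.span_induction with
  | mem F hF =>
    obtain ⟨f, hf, rfl⟩ := hF
    intro R
    refine ⟨J + R, fun x y hxy => ?_⟩
    obtain ⟨w, hw⟩ := hL.lip f hf (J + R) (by omega) x y hxy
    have hw' := congrArg (fun z : ℤ_[p] => (z : ℚ_[p])) hw
    push_cast at hw'
    rw [hw', norm_mul, norm_pow, Padic.norm_p]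
    have : ‖(w : ℚ_[p])‖ ≤ 1 := w.2
    have e1 : J + R - J = R := by omega
    rw [e1, zpow_neg, zpow_natCast, inv_pow]
    exact mul_le_of_le_one_right (by positivity) this
  | zero =>
    intro R
    refine ⟨0, fun x y _ => ?_⟩
    simp only [Pi.zero_apply, sub_zero, norm_zero]
    positivity
  | add F F' _ _ ih ih' =>
    intro R
    obtain ⟨k, hk⟩ := ih R
    obtain ⟨k', hk'⟩ := ih' R
    refine ⟨max k k', fun x y hxy => ?_⟩
    have h1 := hk x y (fun j hj => hxy j (lt_of_lt_of_le hj (le_max_left _ _)))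
    have h2 := hk' x y (fun j hj => hxy j (lt_of_lt_of_le hj (le_max_right _ _)))
    have e1 : (F + F') x - (F + F') y = (F x - F y) + (F' x - F' y) := by
      simp only [Pi.add_apply]; ring
    rw [e1]
    exact (Padic.nonarchimedean _ _).trans (max_le h1 h2)
  | smul c F _ ih =>
    intro R
    obtain ⟨M, hM⟩ := pow_unbounded_of_one_lt ‖c‖ hp1
    obtain ⟨k, hk⟩ := ih (R + M)
    refine ⟨k, fun x y hxy => ?_⟩
    have h1 := hk x y hxy
    have e1 : (c • F) x - (c • F) y = c * (F x - F y) := by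
      simp only [Pi.smul_apply, smul_eq_mul]; ring
    rw [e1, norm_mul]
    calc ‖c‖ * ‖F x - F y‖ ≤ (p : ℝ) ^ M * (p : ℝ) ^ (-((R + M : ℕ) : ℤ)) := by
          apply mul_le_mul hM.le h1 (norm_nonneg _) (by positivity)
      _ = (p : ℝ) ^ (-(R : ℤ)) := by
          rw [← zpow_natCast, ← zpow_add₀ hp0.ne']
          congr 1
          push_cast
          ring

lemma contY (hB : BHyp p s Q X J α Φ) (hL : LHyp p Q J α e Λ) {F : Qf p} (hF : F ∈ LQ p Λ) :
    ContY X s F := by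
  intro x
  have hp1 : (1 : ℝ) < p := by exact_mod_cast (Fact.out : p.Prime).one_lt
  rw [Metric.tendsto_atTop]
  intro ε hε
  obtain ⟨R, hR⟩ := exists_pow_lt_of_lt_one hε (inv_lt_one_of_one_lt₀ hp1)
  obtain ⟨k, hk⟩ := cont hL hF R
  refine ⟨max k J, fun i hi => ?_⟩
  have h1 := hk x (YY X s i x) (fun j hj => agr_Y hB ((le_max_right _ _).trans hi) x j
    (lt_of_lt_of_le hj ((le_max_left _ _).trans hi)))
  rw [dist_comm, dist_eq_norm]
  refine lt_of_le_of_lt h1 ?_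
  rw [zpow_neg, zpow_natCast, ← inv_pow]
  exact hR

lemma act_mem (hL : LHyp p Q J α e Λ) {g : Pm p} (hg : g ∈ Q) {F : Qf p} (hF : F ∈ LQ p Λ) :
    actF p (fun g x => (e g x : ℚ_[p])) g F ∈ LQ p Λ := by
  induction hF using Submodule.span_induction with
  | mem F hF =>
    obtain ⟨f, hf, rfl⟩ := hF
    have := mem_LQ (hL.act g hg f hf)
    convert this using 1
    funext x
    simp [actF]
  | zero =>
    convert Submodule.zero_mem _ using 1
    funext x
    simp [actF]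
  | add F F' _ _ ih ih' =>
    convert Submodule.add_mem _ ih ih' using 1
    funext x
    simp only [actF, Pi.add_apply]
    ring
  | smul c F _ ih =>
    convert Submodule.smul_mem _ c ih using 1
    funext x
    simp only [actF, Pi.smul_apply, smul_eq_mul]
    ring

lemma one_memL (hL : LHyp p Q J α e Λ) : oneF p ∈ LQ p Λ := by
  convert mem_LQ hL.one_mem using 1
  funext x
  simp [oneF]

lemma e_mem (hL : LHyp p Q J α e Λ) {g : Pm p} (hg : g ∈ Q) :
    (fun x => (e g x : ℚ_[p])) ∈ LQ p Λ := by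
  convert act_mem hL hg (one_memL hL) using 1
  funext x
  simp [actF, oneF]

lemma compL (hB : BHyp p s Q X J α Φ) (hE : EHyp p s Q X J Φ e) (hL : LHyp p Q J α e Λ)
    (hD : DHyp p s J Φ Λ D) {g : Pm p} (hg : g ∈ Q) {F : Qf p} (hF : F ∈ LQ p Λ) :
    DQ X s J (actF p (fun g x => (e g x : ℚ_[p])) g F) =
      fun x => DQ X s J F (g x) + F (g x) * DQ X s J (fun x => (e g x : ℚ_[p])) x := by
  apply HasD.eq
  intro x
  have h1 := (hasD_DQ hB hE hD hF).2.2 g hg x
  have h2 := (hasD_DQ hB hE hD (e_mem hL hg)).1 x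
  have h3 := contY hB hL (e_mem hL hg) x
  have h4 := (h1.mul h3).add (h2.const_mul (F (g x)))
  rw [mul_assoc, inv_mul_cancel₀ (e_ne hE hg x), mul_one] at h4
  refine h4.congr fun i => ?_
  simp only [actF]
  ring

lemma irrL (hB : BHyp p s Q X J α Φ) (hI : S_IRR) (C : ℤ → AddSubgroup (LQ p Λ))
    (hC : ChainHyp p α (LQ p Λ) C (Ops p Q (LQ p Λ) (fun g x => (e g x : ℚ_[p]))))
    (W : Submodule ℚ_[p] (Qf p)) (hW : W ≤ LQ p Λ)
    (hWQ : ∀ g ∈ Q, ∀ f ∈ W, actF p (fun g x => (e g x : ℚ_[p])) g f ∈ W) :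
    W = ⊥ ∨ W = LQ p Λ := by
  have h := hI p α (LQ p Λ) C _ hB.A.apos hC (W.comap (LQ p Λ).subtype) (by
    rintro A ⟨g, hg, hA⟩ w hw
    rw [Submodule.mem_comap] at hw ⊢
    have : (LQ p Λ).subtype (A w) = actF p (fun g x => (e g x : ℚ_[p])) g
        ((LQ p Λ).subtype w) := by
      funext x
      exact hA w x
    rw [this]
    exact hWQ g hg _ hw)
  rcases h with h | h
  · left
    rw [eq_bot_iff]
    intro w hw
    have h1 : (⟨w, hW hw⟩ : LQ p Λ) ∈ W.comap (LQ p Λ).subtype := hw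
    rw [h, Submodule.mem_bot] at h1
    rw [Submodule.mem_bot]
    exact congrArg Subtype.val h1
  · right
    refine le_antisymm hW fun w hw => ?_
    have h1 : (⟨w, hw⟩ : LQ p Λ) ∈ W.comap (LQ p Λ).subtype := by
      rw [h]; exact Submodule.mem_top
    exact h1

lemma act_act (hE : EHyp p s Q X J Φ e) {g : Pm p} (hg : g ∈ Q) (F : Qf p) :
    actF p (fun g x => (e g x : ℚ_[p])) g (actF p (fun g x => (e g x : ℚ_[p])) g⁻¹ F) = F := by
  funext x
  have h1 := hE.mul g⁻¹ (Q.inv_mem hg) g hg x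
  rw [inv_mul_cancel] at h1
  have h2 := congrArg (fun z : ℤ_[p] => (z : ℚ_[p])) h1
  push_cast at h2
  rw [e_one hE] at h2
  simp only [actF]
  rw [mul_assoc, ← h2, mul_one, ← Equiv.Perm.mul_apply, inv_mul_cancel, Equiv.Perm.one_apply]

lemma brk_E (hB : BHyp p s Q X J α Φ) (hE : EHyp p s Q X J Φ e) (hL : LHyp p Q J α e Λ)
    (hD : DHyp p s J Φ Λ D) {g : Pm p} (hg : g ∈ Q) {F : Qf p} (hF : F ∈ LQ p Λ) :
    brk p (DQ X s J) (fun x => (e g x : ℚ_[p])) F ∈ LQ p Λ := by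
  set k := actF p (fun g x => (e g x : ℚ_[p])) g⁻¹ F with hk
  have hkL : k ∈ LQ p Λ := act_mem hL (Q.inv_mem hg) hF
  have hFk : actF p (fun g x => (e g x : ℚ_[p])) g k = F := act_act hE hg F
  have h1 := compL hB hE hL hD hg hkL
  rw [hFk] at h1
  have h2 : brk p (DQ X s J) (fun x => (e g x : ℚ_[p])) F =
      actF p (fun g x => (e g x : ℚ_[p])) g (DQ X s J k) := by
    funext x
    have h3 : F x = k (g x) * (e g x : ℚ_[p]) := by
      conv_lhs => rw [← hFk]
      rfl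
    simp only [brk]
    rw [h1, h3]
    simp only [actF]
    ring
  rw [h2]
  exact act_mem hL hg (hasD_DQ hB hE hD hkL).2.1

lemma brk_mem (hB : BHyp p s Q X J α Φ) (hE : EHyp p s Q X J Φ e) (hL : LHyp p Q J α e Λ)
    (hD : DHyp p s J Φ Λ D) (hI : S_IRR) (C : ℤ → AddSubgroup (LQ p Λ))
    (hC : ChainHyp p α (LQ p Λ) C (Ops p Q (LQ p Λ) (fun g x => (e g x : ℚ_[p]))))
    {F : Qf p} (hF : F ∈ LQ p Λ) {H : Qf p} (hH : H ∈ LQ p Λ) :
    brk p (DQ X s J) F H ∈ LQ p Λ := by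
  set W : Submodule ℚ_[p] (Qf p) :=
    Submodule.span ℚ_[p] {F | ∃ g ∈ Q, F = fun x => (e g x : ℚ_[p])} with hWdef
  have hWL : W ≤ LQ p Λ := by
    rw [hWdef, Submodule.span_le]
    rintro _ ⟨g, hg, rfl⟩
    exact e_mem hL hg
  have hWQ : ∀ g ∈ Q, ∀ f ∈ W, actF p (fun g x => (e g x : ℚ_[p])) g f ∈ W := by
    intro g hg f hf
    induction hf using Submodule.span_induction with
    | mem f hf =>
      obtain ⟨h, hh, rfl⟩ := hf
      refine Submodule.subset_span ⟨h * g, Q.mul_mem hh hg, ?_⟩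
      funext x
      rw [hE.mul h hh g hg x]
      simp [actF]
    | zero =>
      convert Submodule.zero_mem W using 1
      funext x
      simp [actF]
    | add F F' _ _ ih ih' =>
      convert Submodule.add_mem W ih ih' using 1
      funext x
      simp only [actF, Pi.add_apply]
      ring
    | smul c F _ ih =>
      convert Submodule.smul_mem W c ih using 1
      funext x
      simp only [actF, Pi.smul_apply, smul_eq_mul]
      ring
  have hW : W = LQ p Λ := by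
    rcases irrL hB hI C hC W hWL hWQ with h | h
    · exfalso
      have h1 : (fun x => (e 1 x : ℚ_[p])) ∈ W := Submodule.subset_span ⟨1, Q.one_mem, rfl⟩
      rw [h, Submodule.mem_bot] at h1
      have h2 := congrFun h1 (fun _ => 0)
      simp only [e_one hE, Pi.zero_apply] at h2
      exact one_ne_zero h2
    · exact h
  have hFW : F ∈ W := by rw [hW]; exact hF
  clear hF
  induction hFW using Submodule.span_induction with
  | mem f hf =>
    obtain ⟨g, hg, rfl⟩ := hf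
    exact brk_E hB hE hL hD hg hH
  | zero =>
    convert Submodule.zero_mem (LQ p Λ) using 1
    funext x
    have h0 : DQ X s J (0 : Qf p) = 0 := by
      apply HasD.eq
      intro x
      simp
    simp only [brk, h0]
    simp
  | add F F' hF hF' ih ih' =>
    convert Submodule.add_mem _ ih ih' using 1
    funext x
    have h1 := (hasD_DQ hB hE hD (hWL hF)).1
    have h2 := (hasD_DQ hB hE hD (hWL hF')).1
    simp only [brk, (h1.add h2).eq, Pi.add_apply]
    ring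
  | smul c F hF ih =>
    convert Submodule.smul_mem _ c ih using 1
    funext x
    have h1 := (hasD_DQ hB hE hD (hWL hF)).1
    simp only [brk, (h1.smul c).eq, Pi.smul_apply, smul_eq_mul]
    ring

end main

theorem main : Pool.Agent.W37.SG.S_LIE := by
  intro _ hI p _ s Q X J α Φ e Λ D C hB hE hL hD hC
  refine ⟨DQ X s J, ?_, ?_⟩
  · refine
      { fd := ?_
        one_mem := one_memL hL
        cont := fun f hf => cont hL hf
        Dmem := fun f hf => (hasD_DQ hB hE hD hf).2.1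
        Dadd := fun f hf h hh =>
          ((hasD_DQ hB hE hD hf).1.add (hasD_DQ hB hE hD hh).1).eq
        Dsmul := fun c f hf => ((hasD_DQ hB hE hD hf).1.smul c).eq
        D1 := hasD_one.eq
        br := ?_
        E_ne := fun g hg x => e_ne hE hg x
        E_mul := ?_
        act := fun g hg f hf => act_mem hL hg hf
        comp := fun g hg f hf => compL hB hE hL hD hg hf
        irr := fun W hW hWQ => irrL hB hI C hC W hW hWQ }
    · obtain ⟨b, _⟩ := hC.basis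
      exact Module.Finite.of_basis b
    · intro f hf h hh
      refine ⟨brk_mem hB hE hL hD hI C hC hf hh, ?_⟩
      have h1 := hasD_DQ hB hE hD hf
      have h2 := hasD_DQ hB hE hD hh
      have h3 := hasD_DQ hB hE hD h1.2.1
      have h4 := hasD_DQ hB hE hD h2.2.1
      have h5 := (h1.1.mul h4.1 (contY hB hL h2.2.1)).sub
        (h2.1.mul h3.1 (contY hB hL h1.2.1))
      have h6 : brk p (DQ X s J) f h = f * DQ X s J h - h * DQ X s J f := by
        funext x
        simp [brk]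
      rw [h6, h5.eq]
      funext x
      simp only [Pi.sub_apply]
      ring
    · intro g hg h hh x
      rw [hE.mul g hg h hh x]
      simp
  · intro f hf
    exact (hasD_of hE (fun g hg x => key hB hE hD hf hg x)).eq

end Pool.Agent.W403.SGLIE
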